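import Pool.Agent.NNe.Chk
import Pool.Agent.NNe.Slots

set_option linter.all false
set_option maxRecDepth 1000000
namespace Pool.Agent.NNr.R11_4_15_17

open Pool.Agent.NNe

noncomputable def SI0_0 : Nat := (nat_lit 0xc0300c0300c0300c020080200802004010040100000)
noncomputable def SW0_0 : Nat := (nat_lit 0x220100050014008003000803c012008001000001c00d006001c016006)
noncomputable def RV0_0 : Nat := (nat_lit 0x20400818200a0860c208601218200f10000308601508604520401618201e08604208603708606618202c10000c0860bd08607f08608b)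
noncomputable def CO0_0 : Nat := (nat_lit 0x2a80202a80102a7430288830288810288800280c30269c30265420265410249c30241c300aa0300aa0100aa0000a743002b03002743)
noncomputable def Y0_0_1_0 : Nat := (nat_lit 0x18000000000040000000000600000000003000000000018000000000000000000000600000000003)
noncomputable def Y0_0_2_3 : Nat := (nat_lit 0xfe0000000003d0000000000d8000000000000000000007e0000000003d000000000380000000000c0000000000e000000000030)
noncomputable def C0_0 : Cd := (Cd.mk (nat_lit 18) (nat_lit 5) (nat_lit 1025) SI0_0 SW0_0 RV0_0 CO0_0 (Sl.cons (Sd.mk (nat_lit 0) (nat_lit 0) (nat_lit 0) (nat_lit 2) (Sb.cons (nat_lit 8) (nat_lit 0) (nat_lit 2) Sb.nil) (Bl.c Y0_0_1_0 (nat_lit 8) (nat_lit 1) Bl.nil)) (Sl.cons (Sd.mk (nat_lit 2) (nat_lit 0) (nat_lit 2) (nat_lit 4) (Sb.cons (nat_lit 8) (nat_lit 0) (nat_lit 4) Sb.nil) (Bl.r Y0_0_1_0 (nat_lit 0) Bl.nil)) (Sl.cons (Sd.mk (nat_lit 9) (nat_lit 8) (nat_lit 6) (nat_lit 5) (Sb.cons (nat_lit 0) (nat_lit 0) (nat_lit 2) (Sb.cons (nat_lit 8) (nat_lit 2) (nat_lit 3) Sb.nil)) (Bl.r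 Y0_0_2_3 (nat_lit 3) Bl.nil)) (Sl.cons (Sd.mk (nat_lit 10) (nat_lit 8) (nat_lit 11) (nat_lit 7) (Sb.cons (nat_lit 0) (nat_lit 0) (nat_lit 4) (Sb.cons (nat_lit 8) (nat_lit 4) (nat_lit 3) Sb.nil)) (Bl.c Y0_0_2_3 (nat_lit 10) (nat_lit 2) Bl.nil)) Sl.nil)))))
noncomputable def SI0_1 : Nat := (nat_lit 0x1405014050140501405014040100401004010040100300c0300c0300c0300c0200802008020080200802004010040100401004010040000000000000000000000)
noncomputable def SW0_1 : Nat := (nat_lit 0x1980c805402200d004402000f00400c4052028010808003200e00380c004e02600f807803000d00300bc04a01d00b8058018005002000c05c02d0160090038015005802800402b011806c0280130090024002000)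
noncomputable def RV0_1 : Nat := (nat_lit 0x20400918200b0860c30860cb08601808601318201010000408601608604620401718201f08603418202008603a08604308603808605e08604e18202618202810000808605308605b0860500860840860900860992040001820000860a208600020400318200308606718202d10000d0860be0860c608606f18203210001008606c08608008608c086094886023a0400c98201208609da04010982016)
noncomputable def CO0_1 : Nat := (nat_lit 0x2a80202a80102a7430297830290c30288830288810288800280c30269c30265420265410255830255810251c30249c30241c3016ac30166430166410156810156800152c3014ac30142c3012b03012743011783011002011001010b8301004301004201004100aa0300aa0100aa0000a7430097830092c3008a81008a800082c3002b03002743001783001103001102001101000b83000142000141)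
noncomputable def Y0_1_1_0 : Nat := (nat_lit 0x3fe00000000012000000000f2000000000000000000003da00000000048000000000ff800000000000000000003fe00000000020000000000ff800000000000000000003c000000000000000000000f4000000000120000000003f000000000000)
noncomputable def Y0_1_2_3 : Nat := (nat_lit 0x1fe000000000080000000007f800000000020000000001c6000000000c30000000006180000000010000000000186000000000000000000007f800000000020000000001fe00000000008000000000638000000001000000000019e00000000008)
noncomputable def Y0_1_4_5 : Nat := (nat_lit 0x1f80000000000000000000072000000000190000000001d800000000000000000003fe000000001020000000003d800000000000000000003fe00000000100000000000ff800000000400000000003fe00000000100)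
noncomputable def C0_1 : Cd := (Cd.mk (nat_lit 52) (nat_lit 6) (nat_lit 546) SI0_1 SW0_1 RV0_1 CO0_1 (Sl.cons (Sd.mk (nat_lit 0) (nat_lit 0) (nat_lit 0) (nat_lit 9) (Sb.cons (nat_lit 0) (nat_lit 0) (nat_lit 3) (Sb.cons (nat_lit 4) (nat_lit 3) (nat_lit 4) (Sb.cons (nat_lit 8) (nat_lit 7) (nat_lit 2) Sb.nil))) (Bl.c Y0_1_1_0 (nat_lit 18) (nat_lit 1) Bl.nil)) (Sl.cons (Sd.mk (nat_lit 2) (nat_lit 0) (nat_lit 9) (nat_lit 9) (Sb.cons (nat_lit 0) (nat_lit 0) (nat_lit 3) (Sb.cons (nat_lit 4) (nat_lit 3) (nat_lit 2) (Sb.cons (nat_lit 8) (nat_lit 5) (nat_lit 4) Sb.nil))) (Bl.r Y0_1_1_0 (nat_lit 0) Bl.nil)) (Sl.cons (Sd.mk (nat_lit 4) (nat_lit 4) (nat_lit 18) (nat_lit 9) (Sb.cons (nat_lit 0) (nat_lit 0) (nat_lit 4) (Sb.cons (nat_lit 4) (nat_lit 4) (nat_lit 3) (Sb.cons (nat_lit 8) (nat_lit 7) (nat_lit 2) Sb.nil))) (Bl.r Y0_1_2_3 (nat_lit 3) Bl.nil)) (Sl.cons (Sd.mk (nat_lit 5) (nat_lit 4) (nat_lit 27) (nat_lit 8) (Sb.cons (nat_lit 0) (nat_lit 0) (nat_lit 2) (Sb.cons (nat_lit 4) (nat_lit 2) (nat_lit 3) (Sb.cons (nat_lit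 8) (nat_lit 5) (nat_lit 3) Sb.nil))) (Bl.c Y0_1_2_3 (nat_lit 18) (nat_lit 2) Bl.nil)) (Sl.cons (Sd.mk (nat_lit 9) (nat_lit 8) (nat_lit 35) (nat_lit 8) (Sb.cons (nat_lit 0) (nat_lit 0) (nat_lit 2) (Sb.cons (nat_lit 4) (nat_lit 2) (nat_lit 3) (Sb.cons (nat_lit 8) (nat_lit 5) (nat_lit 3) Sb.nil))) (Bl.r Y0_1_4_5 (nat_lit 5) Bl.nil)) (Sl.cons (Sd.mk (nat_lit 10) (nat_lit 8) (nat_lit 43) (nat_lit 9) (Sb.cons (nat_lit 0) (nat_lit 0) (nat_lit 4) (Sb.cons (nat_lit 4) (nat_lit 4) (nat_lit 2) (Sb.cons (nat_lit 8) (nat_lit 6) (nat_lit 3) Sb.nil))) (Bl.c Y0_1_4_5 (nat_lit 16) (nat_lit 4) Bl.nil)) Sl.nil)))))))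
noncomputable def SI0_2 : Nat := (nat_lit 0xc0300c0300c02008020080200802004010040100400000000000000000)
noncomputable def SW0_2 : Nat := (nat_lit 0xb805802400b0030054022010005001400800300a003c012008001004c01c00d006001c002000)
noncomputable def RV0_2 : Nat := (nat_lit 0x18202910000908605408605c08605108609a2040011820010860a30860012040041820040860c708607018203310001108606d086095886024a0400d98201308609ea04011982017)
noncomputable def CO0_2 : Nat := (nat_lit 0x156810156800152c3014ac30142c3011783011002011001010b830100430100420100410097830092c3008a81008a800082c3001783001103001102001101000b83000142000141)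
noncomputable def Y0_2_1_0 : Nat := (nat_lit 0xda0000000002000000000036800000000134000000000c80000000002000000000032000000000000000000000da0000000004d)
noncomputable def Y0_2_2_3 : Nat := (nat_lit 0x3e00000000007000000000000000000000000000000000e000000000070000000000f80000000001c0000000003e00000000017000000000000000000000000000000000e00000000007)
noncomputable def C0_2 : Cd := (Cd.mk (nat_lit 24) (nat_lit 7) (nat_lit 67) SI0_2 SW0_2 RV0_2 CO0_2 (Sl.cons (Sd.mk (nat_lit 0) (nat_lit 0) (nat_lit 0) (nat_lit 7) (Sb.cons (nat_lit 0) (nat_lit 0) (nat_lit 3) (Sb.cons (nat_lit 4) (nat_lit 3) (nat_lit 4) Sb.nil)) (Bl.c Y0_2_1_0 (nat_lit 10) (nat_lit 1) Bl.nil)) (Sl.cons (Sd.mk (nat_lit 2) (nat_lit 0) (nat_lit 7) (nat_lit 5) (Sb.cons (nat_lit 0) (nat_lit 0) (nat_lit 3) (Sb.cons (nat_lit 4) (nat_lit 3) (nat_lit 2) Sb.nil)) (Bl.r Y0_2_1_0 (nat_lit 0) Bl.nil)) (Sl.cons (Sd.mk (nat_lit 4) (nat_lit 4) (nat_lit 12) (nat_lit 7) (Sb.cons (nat_lit 0) (nat_lit 0) (nat_lit 4) (Sb.cons (nat_lit 4) (nat_lit 4) (nat_lit 3) Sb.nil))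 (Bl.r Y0_2_2_3 (nat_lit 3) Bl.nil)) (Sl.cons (Sd.mk (nat_lit 5) (nat_lit 4) (nat_lit 19) (nat_lit 5) (Sb.cons (nat_lit 0) (nat_lit 0) (nat_lit 2) (Sb.cons (nat_lit 4) (nat_lit 2) (nat_lit 3) Sb.nil)) (Bl.c Y0_2_2_3 (nat_lit 14) (nat_lit 2) Bl.nil)) Sl.nil)))))
noncomputable def SI0_3 : Nat := (nat_lit 0x2008020080200802008020080200802008020080200802008020080200802008020080200801c0701c0701c0701c0701c0701c07018060180601806018060180601806018060180601806018060180601806018060180601806018060180601806018060180601806018060140501405014050140501405014050140501405014050140501405014050100401004010040100401004010040100401004010040100401004010040100300c0300c0300c0300c0300c0300c0300c0300c0300c0300c0300c0300c0300802008020080200802008020080200802008010040100401004010040100401004010040100401004010040000000000000000000000000000000000000)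
noncomputable def SW0_3 : Nat := (nat_lit 0xf607a03c81800c605f02f01880c205d02e016c08e04a0230114092048022010c08403101800bc044021010003801a00c03c01dc0b4059020810005c02d00f807801600a03981c80ec07103801bc0ea07403701b40d805502c01500a605702b01480a205001e00fc07603a01f00f407203801b80b005602a00d007403201800e006c02e01600a8024010007068834019e0b305902941420a005382981480a3051027c13c09d01b00a4050014009804800c00506683281920ce066032c1900c706302c416009b04c025c13809a04c825812a09401a80d004e01100203101820c0062830c1840bf05f02f415e0ae049023c11c093048824011a08c04581ac09e04e008000c1780bb05d02b415808a04482200d4069026803c00400100002e41700b705582a810c083041021c10a08404082000fe068033819809803301302d816a0b405482a00fc07d03e01940c804b0190094048023)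
noncomputable def RV0_3 : Nat := (nat_lit 0x8607b3880100860220860c508607808606b18203038800e08601f08601020400b18200d0860ce08607718203110000f38800d08601e08601118200e10000208607638800c08601d08607938800f08602008607438800b08601b08606308604a08605a08604108605908604008605808603f08606108604808605608603d388017086087886031886026a0400f98201538800608600e38800020400218200208609388602ea0401298201838800408600b08600320400618200608609c88602d88602798201938800308600a08600418200710000088602c3880020860090860a688602f88602898201a38800508600c08600518200810000188602a3880010860070860d138801f0860b90860cd0860c40860bc38801d0860b638800a08601a08600f20400a18200c3880072040071820090860cc3880090860190860141820111000053880080860170860b338801b0860ab08604708603618202208603320401418201c0860b10860af0860ad3880190860a908603c20401518201d08603220401318201b08603518202108603b0860440860390860b238801a0860aa08606018202a10000a08604c1820241000070860b00860ae0860ac3880180860a808605508604d18202508604b18202310000608605f08604f18202708605d0860520860a538801608608608609b08609208608a38801208607e3880150860850860910860a40860022040051820050860cf38801e0860b70860c90860c00860ba38801c0860b408607208606918202f08606418202b10000b08606818202e10000e0860bf0860c80860710860a038801408608208609708608e08608838801108607c38801308608108608d086096886025a0400e982014)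
noncomputable def CO0_3 : Nat := (nat_lit 0x3aac303a8c403a8c303a74303a6c303a64303a64103a4c403a4c303a44303a44203a4410397830396c30396810396800394c40394c30394830394810394800392c30390c40390c3038ac30388c40388c30382c30380c40380c3036ac30369c30366c30365c30356c30355c30352c30351c3034ac30349c30342c30341c3032b04032b030329c30329030329020329010328c40328c30328040328020328010327430325c30325420325410324c40324c30324430324420324410317830315c30315830315810314c40314c30314830314810314800311c30310c40310c3030b830309c30309830309810308c40308c30308830308810308800301c30300c40300c302bb8302bb0402bb0302b78302b74302b34302b30402b30302b0c402b0c302b04302b04202b04102b00402b00202b0010297830290c40290c30288830288810288800280c40280c3027b83027b04027b030279c30279830279810279030279020279010277830277430273430273040273030271c30271420271410271030271020271010255830255810251c30249c30241c3017b83017b04017b03017ac3017a81017a80017a03017a01017a000177830177430173430173040173030172c3017243017241017203017201017200016ac3016643016641014ac30142c3013b83013b04013b03013783013743013343013304013303012b04012b03012743010b8301004301004201004100bb8300bb0400bb0300b78300b74300b34300b30400b30300b2c300b24300b24100b20300b20100b20000aa0300aa0100aa0000a7430097830092c3003b83003b04003b03003783003743003343003304003303002b04002b03002743001783001103001102001101)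
noncomputable def Y0_3_1_0 : Nat := (nat_lit 0x1f80000000003400000000000000000000000000000001f80000000003c0000000007e000000000040000000001f8000000000000000000007e00000000002000000000000000000000000000000007e0000000000f0000000001f8000000000000000000007e000000000100000000001f8000000000080000000007e000000000100000000001f8000000000080000000007e0000000000800000002f47800000005a000000000bd1e0000000000200000002f47800000017a200000000bd1e0000000000200000002f58000000017a000000000bd6000000000000)
noncomputable def Y0_3_2_3 : Nat := (nat_lit 0x3e0000000001f000000000000000000000000000000003e0000000001f0000000000f80000000007c0000000003e0000000001f0000000000f80000000007c00000000000000000000000000000000f80000000007c000000000000000000000000000bff7f180000024008000002ffdfc6000000d02a000000bff7fe00000024008000002ffdff80000009002000000bff7fe000000180f3000002ffdff800000090020)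
noncomputable def Y0_3_4_5 : Nat := (nat_lit 0x17a00000000000000000000000000000000000000000017a000000000000000000005e8000000000000000000017a000000000840000000005e8000000000100000000017a000000000840000000005e8000000002e40000000017a000000000040000000005e8000000000000000000017a000000000000000000005e80000000000000000000000000000000000000000005e8000000000000000000017a000000000000000000005e8000000002e40000000017a000000000000000000005e8000000002100000000017a000000000b90000000005e800000000010000017af63a00000a51204000005ebd8e800000004810000017af63a00000251200000005ebdd0000000944800000017af74000000251200)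
noncomputable def Y0_3_6_6 : Nat := (nat_lit 0x808808000000000000000000000000000000000000000000000000000000000000000000000000000000000000000000000000000000000000000000000000000000001e09e0800000b003000000000000000000000000000000808808000004044040000020220200000000000000001e088080000020000000000000000000000000000000000000000000000000000000000000000000000000000000000000000000000000000402782000002000c000000160880800000b00000000005822020000008110100000160880800000200000100f0000202080200001010000000000000000000000000000000000000000000000000000000000000000000000000000000000000000000f8200001e081c000000300100b0000202000100000000402c000080800000000000100b0000202080480001010000000000000000000000000000000000000000000000f83c0001e081c04000030010040202000000000000000000000000000000000000000000000000000000000000000000000000000000000000000000000000000000000f83c1e080001c040b0000010040202000000000000000401008080000000000000010040202000080201010000000000000000000000000000000000000000000000000f83c1e080001c040b00000)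
noncomputable def Y0_3_7_7 : Nat := (nat_lit 0x15400000000000000000000000000000000000000000015400000000000000000000000000000000000000000141400000000000000000000000000000000000000000141400000000000000000000000000000000000000000154000000000000000000000000000000000000000000154000000000000)
noncomputable def Y0_3_8_8 : Nat := (nat_lit 0x10f2480000000080000000000000000000000000000000000000000000000000000043c92000000000000000001002480000000000000000041c9200000000a49000000107248000000000000000000000000000000000000000000000000000000000000000000000000000000000000000000000000000000000000000000000000000000061e00048000208000240001800001200000000000000060e0004800000000000000183800120000c140009000000000000000000000000000000000000000000000000000000000000000000000000000000000000000000000000000000000000000000001878001200000080000000000000000000000000000000000000000000000000000061f0f20000000200800000000000000000000000000000000000000000000000000187c3c8000000080200000000000000000000000000000000000000000000000)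
noncomputable def C0_3 : Cd := (Cd.mk (nat_lit 210) (nat_lit 4) (nat_lit 4369) SI0_3 SW0_3 RV0_3 CO0_3 (Sl.cons (Sd.mk (nat_lit 0) (nat_lit 0) (nat_lit 0) (nat_lit 15) (Sb.cons (nat_lit 4) (nat_lit 0) (nat_lit 4) (Sb.cons (nat_lit 8) (nat_lit 4) (nat_lit 3) (Sb.cons (nat_lit 12) (nat_lit 7) (nat_lit 8) Sb.nil))) (Bl.c Y0_3_1_0 (nat_lit 40) (nat_lit 1) Bl.nil)) (Sl.cons (Sd.mk (nat_lit 2) (nat_lit 0) (nat_lit 15) (nat_lit 20) (Sb.cons (nat_lit 4) (nat_lit 0) (nat_lit 2) (Sb.cons (nat_lit 8) (nat_lit 2) (nat_lit 4) (Sb.cons (nat_lit 12) (nat_lit 6) (nat_lit 14) Sb.nil))) (Bl.r Y0_3_1_0 (nat_lit 0) Bl.nil)) (Sl.cons (Sd.mk (nat_lit 4) (nat_lit 4) (nat_lit 35) (nat_lit 15) (Sb.cons (nat_lit 0) (nat_lit 0) (nat_lit 4) (Sb.cons (nat_lit 8) (nat_lit 4) (nat_lit 3) (Sb.cons (nat_lit 12) (nat_lit 7) (nat_lit 8) Sb.nil))) (Bl.r Y0_3_2_3 (nat_lit 3) Bl.nil)) (Sl.cons (Sd.mk (nat_lit 5) (nat_lit 4) (nat_lit 50) (nat_lit 25) (Sb.cons (nat_lit 0) (nat_lit 0) (nat_lit 2) (Sb.cons (nat_lit 8) (nat_lit 2) (nat_lit 3) (Sb.cons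 (nat_lit 12) (nat_lit 5) (nat_lit 20) Sb.nil))) (Bl.c Y0_3_2_3 (nat_lit 30) (nat_lit 2) Bl.nil)) (Sl.cons (Sd.mk (nat_lit 9) (nat_lit 8) (nat_lit 75) (nat_lit 25) (Sb.cons (nat_lit 0) (nat_lit 0) (nat_lit 2) (Sb.cons (nat_lit 4) (nat_lit 2) (nat_lit 3) (Sb.cons (nat_lit 12) (nat_lit 5) (nat_lit 20) Sb.nil))) (Bl.r Y0_3_4_5 (nat_lit 5) Bl.nil)) (Sl.cons (Sd.mk (nat_lit 10) (nat_lit 8) (nat_lit 100) (nat_lit 24) (Sb.cons (nat_lit 0) (nat_lit 0) (nat_lit 5) (Sb.cons (nat_lit 4) (nat_lit 5) (nat_lit 3) (Sb.cons (nat_lit 12) (nat_lit 8) (nat_lit 16) Sb.nil))) (Bl.c Y0_3_4_5 (nat_lit 50) (nat_lit 4) Bl.nil)) (Sl.cons (Sd.mk (nat_lit 12) (nat_lit 12) (nat_lit 124) (nat_lit 44) (Sb.cons (nat_lit 0) (nat_lit 0) (nat_lit 12) (Sb.cons (nat_lit 4) (nat_lit 12) (nat_lit 12) (Sb.cons (nat_lit 8) (nat_lit 24) (nat_lit 20) Sb.nil))) (Bl.r Y0_3_6_6 (nat_lit 6) (Bl.c Y0_3_6_6 (nat_lit 88) (nat_lit 6) Bl.nil))) (Sl.cons (Sd.mk (nat_lit 13) (nat_lit 12) (nat_lit 168) (nat_lit 12) (Sb.cons (nat_lit 0) (nat_lit 0) (nat_lit 4) (Sb.cons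 (nat_lit 4) (nat_lit 4) (nat_lit 4) (Sb.cons (nat_lit 8) (nat_lit 8) (nat_lit 4) Sb.nil))) (Bl.r Y0_3_7_7 (nat_lit 7) (Bl.c Y0_3_7_7 (nat_lit 24) (nat_lit 7) Bl.nil))) (Sl.cons (Sd.mk (nat_lit 14) (nat_lit 12) (nat_lit 180) (nat_lit 30) (Sb.cons (nat_lit 0) (nat_lit 0) (nat_lit 6) (Sb.cons (nat_lit 4) (nat_lit 6) (nat_lit 12) (Sb.cons (nat_lit 8) (nat_lit 18) (nat_lit 12) Sb.nil))) (Bl.r Y0_3_8_8 (nat_lit 8) (Bl.c Y0_3_8_8 (nat_lit 60) (nat_lit 8) Bl.nil))) Sl.nil))))))))))
noncomputable def SI0_4 : Nat := (nat_lit 0x10040100400c0300c03008020080200802008010040100401004010040100400000000000000000)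
noncomputable def SW0_4 : Nat := (nat_lit 0x8003c00c0050070034008003005003001200b004000800201f00f006c03401600a005c02a013000007403801900c0048022007)
noncomputable def RV0_4 : Nat := (nat_lit 0x8607a08602108607508601c08606208604908605708603e0860a788603088602908600d08600688602b0860080860d00860b80860ca0860c10860bb0860b508607308606a08606508606e0860a108608308609808608f08608908607d08609f)
noncomputable def CO0_4 : Nat := (nat_lit 0x38ac30388c30382c30380c3034ac30349c30342c30341c3030b830309c30309830308c30308830301c30300c300bb8300bb0300b78300b74300b34300b30300b2c300b24300b2030082c3003b83003b03003783003743003343003303000b83)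
noncomputable def C0_4 : Cd := (Cd.mk (nat_lit 32) (nat_lit 10) (nat_lit 4105) SI0_4 SW0_4 RV0_4 CO0_4 (Sl.cons (Sd.mk (nat_lit 0) (nat_lit 0) (nat_lit 0) (nat_lit 7) (Sb.cons (nat_lit 0) (nat_lit 0) (nat_lit 1) (Sb.cons (nat_lit 12) (nat_lit 1) (nat_lit 6) Sb.nil)) Bl.nil) (Sl.cons (Sd.mk (nat_lit 2) (nat_lit 0) (nat_lit 7) (nat_lit 10) (Sb.cons (nat_lit 0) (nat_lit 0) (nat_lit 1) (Sb.cons (nat_lit 12) (nat_lit 1) (nat_lit 9) Sb.nil)) Bl.nil) (Sl.cons (Sd.mk (nat_lit 12) (nat_lit 12) (nat_lit 17) (nat_lit 7) (Sb.cons (nat_lit 0) (nat_lit 0) (nat_lit 7) Sb.nil) Bl.nil) (Sl.cons (Sd.mk (nat_lit 13) (nat_lit 12) (nat_lit 24) (nat_lit 4) (Sb.cons (nat_lit 0) (nat_lit 0) (nat_lit 4) Sb.nil) Bl.nil) (Sl.cons (Sd.mk (nat_lit 14) (nat_lit 12) (nat_lit 28) (nat_lit 4) (Sb.cons (nat_lit 0) (nat_lit 0) (nat_lit 4) Sb.nil) Bl.nil) Sl.nil))))))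
noncomputable def CL0 : Cl := (Cl.cons C0_0 (Cl.cons C0_1 (Cl.cons C0_2 (Cl.cons C0_3 (Cl.cons C0_4 Cl.nil)))))
noncomputable def ZL0_0 : Zl := (Zl.cons (nat_lit 0) (nat_lit 0) (nat_lit 0) (Zl.cons (nat_lit 18) (nat_lit 0) (nat_lit 9) (Zl.cons (nat_lit 12) (nat_lit 9) (nat_lit 7) (Zl.cons (nat_lit 35) (nat_lit 16) (nat_lit 15) (Zl.cons (nat_lit 0) (nat_lit 0) (nat_lit 0) Zl.nil)))))
noncomputable def ZZ0 : ZZ := (ZZ.cons ZL0_0 ZZ.nil)
noncomputable def SI1_0 : Nat := (nat_lit 0xc0300c0300c0200802008010040100000)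
noncomputable def SW1_0 : Nat := (nat_lit 0x1a008002000c00200c003800800000b0050018012005)
noncomputable def RV1_0 : Nat := (nat_lit 0x18200508605f08600b18200708600e08602918201108602708602308603718201608605d08604408604b)
noncomputable def CO1_0 : Nat := (nat_lit 0x2a80102a7430288830288810280c30269c30265410249c30241c300aa0300aa0100a743002b03002743)
noncomputable def Y1_0_1_0 : Nat := (nat_lit 0x40000100000c0000300000c00003)
noncomputable def Y1_0_2_3 : Nat := (nat_lit 0x7c0001f00007c0001f0000600001800006000018)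
noncomputable def C1_0 : Cd := (Cd.mk (nat_lit 14) (nat_lit 5) (nat_lit 1025) SI1_0 SW1_0 RV1_0 CO1_0 (Sl.cons (Sd.mk (nat_lit 0) (nat_lit 0) (nat_lit 0) (nat_lit 2) (Sb.cons (nat_lit 8) (nat_lit 0) (nat_lit 2) Sb.nil) (Bl.c Y1_0_1_0 (nat_lit 6) (nat_lit 1) Bl.nil)) (Sl.cons (Sd.mk (nat_lit 2) (nat_lit 0) (nat_lit 2) (nat_lit 3) (Sb.cons (nat_lit 8) (nat_lit 0) (nat_lit 3) Sb.nil) (Bl.r Y1_0_1_0 (nat_lit 0) Bl.nil)) (Sl.cons (Sd.mk (nat_lit 9) (nat_lit 8) (nat_lit 5) (nat_lit 4) (Sb.cons (nat_lit 0) (nat_lit 0) (nat_lit 2) (Sb.cons (nat_lit 8) (nat_lit 2) (nat_lit 2) Sb.nil)) (Bl.r Y1_0_2_3 (nat_lit 3) Bl.nil)) (Sl.cons (Sd.mk (nat_lit 10) (nat_lit 8) (nat_lit 9) (nat_lit 5) (Sb.cons (nat_lit 0) (nat_lit 0) (nat_lit 3) (Sb.cons (nat_lit 8) (nat_lit 3) (nat_lit 2) Sb.nil)) (Bl.c Y1_0_2_3 (nat_lit 8) (nat_lit 2) Bl.nil)) Sl.nil)))))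
noncomputable def SI1_1 : Nat := (nat_lit 0x140501405010040100300c0300c0200802008020080100401004000000000000)
noncomputable def SW1_1 : Nat := (nat_lit 0x3200e004001c02a0120068050022006002006002600c001800800201700b004000a00f0058028012000)
noncomputable def RV1_1 : Nat := (nat_lit 0x20400608600f08600c10000320401108602008602508602d10000708603308602f08604608604d20400008600020400218200108603810000a08606010000d08604f886015a04009982009a0400c)
noncomputable def CO1_1 : Nat := (nat_lit 0x2a8020290c30288830288800265420255830251c3016643015680014ac30142c3012b0301274301100201004301004201004100aa0300aa00009783008a80001783001103001102001101000142)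
noncomputable def Y1_1_1_0 : Nat := (nat_lit 0x1400000000048000000000200000000004800000)
noncomputable def Y1_1_2_3 : Nat := (nat_lit 0x10000000000100000000002000000000010000000000200000000001000000)
noncomputable def Y1_1_4_5 : Nat := (nat_lit 0x18000000000240000000002000000)
noncomputable def C1_1 : Cd := (Cd.mk (nat_lit 26) (nat_lit 6) (nat_lit 546) SI1_1 SW1_1 RV1_1 CO1_1 (Sl.cons (Sd.mk (nat_lit 0) (nat_lit 0) (nat_lit 0) (nat_lit 5) (Sb.cons (nat_lit 0) (nat_lit 0) (nat_lit 1) (Sb.cons (nat_lit 4) (nat_lit 1) (nat_lit 4) Sb.nil)) (Bl.c Y1_1_1_0 (nat_lit 8) (nat_lit 1) Bl.nil)) (Sl.cons (Sd.mk (nat_lit 2) (nat_lit 0) (nat_lit 5) (nat_lit 4) (Sb.cons (nat_lit 0) (nat_lit 0) (nat_lit 1) (Sb.cons (nat_lit 4) (nat_lit 1) (nat_lit 1) (Sb.cons (nat_lit 8) (nat_lit 2) (nat_lit 2) Sb.nil))) (Bl.r Y1_1_1_0 (nat_lit 0) Bl.nil)) (Sl.cons (Sd.mk (nat_lit 4) (nat_lit 4) (nat_lit 9) (nat_lit 6) (Sb.cons (nat_lit 0) (nat_lit 0) (nat_lit 3) (Sb.cons (nat_lit 4) (nat_lit 3) (nat_lit 1) (Sb.cons (nat_lit 8) (nat_lit 4)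 (nat_lit 2) Sb.nil))) (Bl.r Y1_1_2_3 (nat_lit 3) Bl.nil)) (Sl.cons (Sd.mk (nat_lit 5) (nat_lit 4) (nat_lit 15) (nat_lit 4) (Sb.cons (nat_lit 0) (nat_lit 0) (nat_lit 2) (Sb.cons (nat_lit 4) (nat_lit 2) (nat_lit 1) (Sb.cons (nat_lit 8) (nat_lit 3) (nat_lit 1) Sb.nil))) (Bl.c Y1_1_2_3 (nat_lit 12) (nat_lit 2) Bl.nil)) (Sl.cons (Sd.mk (nat_lit 9) (nat_lit 8) (nat_lit 19) (nat_lit 3) (Sb.cons (nat_lit 4) (nat_lit 0) (nat_lit 2) (Sb.cons (nat_lit 8) (nat_lit 2) (nat_lit 1) Sb.nil)) (Bl.r Y1_1_4_5 (nat_lit 5) Bl.nil)) (Sl.cons (Sd.mk (nat_lit 10) (nat_lit 8) (nat_lit 22) (nat_lit 4) (Sb.cons (nat_lit 0) (nat_lit 0) (nat_lit 2) (Sb.cons (nat_lit 4) (nat_lit 2) (nat_lit 1) (Sb.cons (nat_lit 8) (nat_lit 3) (nat_lit 1) Sb.nil))) (Bl.c Y1_1_4_5 (nat_lit 6) (nat_lit 4) Bl.nil)) Sl.nil)))))))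
noncomputable def SI1_2 : Nat := (nat_lit 0xc0300c0300802008020080100401004000000000000)
noncomputable def SW1_2 : Nat := (nat_lit 0x2200d004001002000c003800c00400f005801800200e005002400a000)
noncomputable def RV1_2 : Nat := (nat_lit 0x18201508603208603408603008605218200008605508600118200208606108603d18201908603c08605088601698200a08605398200c)
noncomputable def CO1_2 : Nat := (nat_lit 0x156810152c3014ac30142c3011783011001010b830100430100410097830092c3008a810082c3001783001103001101000b83000141)
noncomputable def Y1_2_1_0 : Nat := (nat_lit 0x200000800005c000160000200000800005c00012)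
noncomputable def Y1_2_2_3 : Nat := (nat_lit 0x1c0000700001c0000000001c0000700003c0000f00001c00002)
noncomputable def C1_2 : Cd := (Cd.mk (nat_lit 18) (nat_lit 7) (nat_lit 67) SI1_2 SW1_2 RV1_2 CO1_2 (Sl.cons (Sd.mk (nat_lit 0) (nat_lit 0) (nat_lit 0) (nat_lit 5) (Sb.cons (nat_lit 0) (nat_lit 0) (nat_lit 2) (Sb.cons (nat_lit 4) (nat_lit 2) (nat_lit 3) Sb.nil)) (Bl.c Y1_2_1_0 (nat_lit 8) (nat_lit 1) Bl.nil)) (Sl.cons (Sd.mk (nat_lit 2) (nat_lit 0) (nat_lit 5) (nat_lit 4) (Sb.cons (nat_lit 0) (nat_lit 0) (nat_lit 2) (Sb.cons (nat_lit 4) (nat_lit 2) (nat_lit 2) Sb.nil)) (Bl.r Y1_2_1_0 (nat_lit 0) Bl.nil)) (Sl.cons (Sd.mk (nat_lit 4) (nat_lit 4) (nat_lit 9) (nat_lit 5) (Sb.cons (nat_lit 0) (nat_lit 0) (nat_lit 3) (Sb.cons (nat_lit 4) (nat_lit 3) (nat_lit 2) Sb.nil)) (Bl.r Y1_2_2_3 (nat_lit 3) Bl.nil)) (Sl.cons (Sd.mk (nat_lit 5) (nat_lit 4) (nat_lit 14) (nat_lit 4) (Sb.cons (nat_lit 0) (nat_lit 0) (nat_lit 2) (Sb.cons (nat_lit 4) (nat_lit 2) (nat_lit 2) Sb.nil)) (Bl.c Y1_2_2_3 (nat_lit 10) (nat_lit 2) Bl.nil))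 Sl.nil)))))
noncomputable def SI1_3 : Nat := (nat_lit 0x1c0701c0701c0701c0701c0701c0701c0701c060180601806018060180601806018060180601806018060180601405014050140501405014050140401004010040100401004010040100400c0300c0300c0300c0300c0300c03008020080200802008020080100401004010040100401004010040000000000000000000000)
noncomputable def SW1_3 : Nat := (nat_lit 0x8204001b00d406803301480a004e01d00e005002600800380fc07a03e01e00c8062030017809804a024011806c034012008003c02200e00300140ca06402b01500aa053011006401a00c005818c0c406103001480a2050027808404001800500100be05e02e813809a04c02580ec05c02d004800c0b805b025012407402c001000400005a02c812008a047023011007203801b80ac03e05802b810c08402a00f005c02c015)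
noncomputable def RV1_3 : Nat := (nat_lit 0x8604108601408603b08600920400818200610000c08600a10000208603f08601208604008601308603e08601188601da0400b086008204001a0400d08600320400418200488601898200d08600410000088601b08600688601c88601998200e08600710000188601a08600508606508605a08605c08605820400720400508606308601008600d18200810000408602208601f20400f18201020401008601e20400e18200f08602118201208602608602808602410000808602b10000608602c18201308602a10000508603608602e18201408603508603108605608604808604a08604308604708604e08600220400318200308606408605908605b08605708603a18201810000908603918201710000b08605e08606208605408604508604908604208604c086051886017a0400a98200b)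
noncomputable def CO1_3 : Nat := (nat_lit 0x3aac303a8c303a64303a44303a44203a4410396800394830394800392c30390c3038ac30388c30382c30380c30329c30329020328c30328020325420324430324420324410315830315810314830314800311c30310c30309c30309830309810308c30308800301c30300c302bb8302bb0302b34302b30302b04202b0020297830290c30288830288810288800279830279030279020279010271420271030271020271010255830255810251c30249c30241c3017a80017a03017a00017243017241017203017200016ac3016643016641014ac30142c3013b83013b03013343013303012b0301274301004301004201004100bb8300bb0300b34300b30300b24300b24100b20000aa0300aa0100aa0000a743009783003b83003b03003343003303002743001783001103001102001101)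
noncomputable def Y1_3_1_0 : Nat := (nat_lit 0x340000000003c000000000080000200003c0000200004000000000008000020000200000000038000000000008000020007a0000080000080000200078000000)
noncomputable def Y1_3_2_3 : Nat := (nat_lit 0x7c0000000007c0000100007c0000000007c0000000288000000003d800000000288000000001730001cc00288000000)
noncomputable def Y1_3_4_5 : Nat := (nat_lit 0x440000100004400000000078000000000040000000007800002000044000000000780000200000400000001f84000e000018400060000f8000000000f8000080000f8000000)
noncomputable def Y1_3_6_6 : Nat := (nat_lit 0x60c001810000508000400000000000000600000000004508010000040000000000000000000000000000000400001000040010800000000000000002400c00000000000000000000000000000000000000024600080000400400000000000000000024600000000)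
noncomputable def Y1_3_7_7 : Nat := (nat_lit 0x10000000000000000000003540001000000000000000000000000000000000000a814000000000000000000000000000001000000000000000000000110000000000000000000011000000000000000000)
noncomputable def C1_3 : Cd := (Cd.mk (nat_lit 102) (nat_lit 4) (nat_lit 4369) SI1_3 SW1_3 RV1_3 CO1_3 (Sl.cons (Sd.mk (nat_lit 0) (nat_lit 0) (nat_lit 0) (nat_lit 9) (Sb.cons (nat_lit 4) (nat_lit 0) (nat_lit 4) (Sb.cons (nat_lit 8) (nat_lit 4) (nat_lit 1) (Sb.cons (nat_lit 12) (nat_lit 5) (nat_lit 4) Sb.nil))) (Bl.c Y1_3_1_0 (nat_lit 24) (nat_lit 1) Bl.nil)) (Sl.cons (Sd.mk (nat_lit 2) (nat_lit 0) (nat_lit 9) (nat_lit 12) (Sb.cons (nat_lit 4) (nat_lit 0) (nat_lit 1) (Sb.cons (nat_lit 8) (nat_lit 1) (nat_lit 4) (Sb.cons (nat_lit 12) (nat_lit 5) (nat_lit 7) Sb.nil))) (Bl.r Y1_3_1_0 (nat_lit 0) Bl.nil)) (Sl.cons (Sd.mk (nat_lit 4) (nat_lit 4) (nat_lit 21) (nat_lit 9) (Sb.cons (nat_lit 0) (nat_lit 0) (nat_lit 3) (Sb.cons (nat_lit 8) (nat_lit 3) (nat_lit 2) (Sb.cons (nat_lit 12) (nat_lit 5) (nat_lit 4)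 Sb.nil))) (Bl.r Y1_3_2_3 (nat_lit 3) Bl.nil)) (Sl.cons (Sd.mk (nat_lit 5) (nat_lit 4) (nat_lit 30) (nat_lit 12) (Sb.cons (nat_lit 0) (nat_lit 0) (nat_lit 2) (Sb.cons (nat_lit 8) (nat_lit 2) (nat_lit 3) (Sb.cons (nat_lit 12) (nat_lit 5) (nat_lit 7) Sb.nil))) (Bl.c Y1_3_2_3 (nat_lit 18) (nat_lit 2) Bl.nil)) (Sl.cons (Sd.mk (nat_lit 9) (nat_lit 8) (nat_lit 42) (nat_lit 13) (Sb.cons (nat_lit 0) (nat_lit 0) (nat_lit 2) (Sb.cons (nat_lit 4) (nat_lit 2) (nat_lit 3) (Sb.cons (nat_lit 12) (nat_lit 5) (nat_lit 8) Sb.nil))) (Bl.r Y1_3_4_5 (nat_lit 5) Bl.nil)) (Sl.cons (Sd.mk (nat_lit 10) (nat_lit 8) (nat_lit 55) (nat_lit 11) (Sb.cons (nat_lit 0) (nat_lit 0) (nat_lit 3) (Sb.cons (nat_lit 4) (nat_lit 3) (nat_lit 2) (Sb.cons (nat_lit 12) (nat_lit 5) (nat_lit 6) Sb.nil))) (Bl.c Y1_3_4_5 (nat_lit 26) (nat_lit 4) Bl.nil)) (Sl.cons (Sd.mk (nat_lit 12) (nat_lit 12) (nat_lit 66) (nat_lit 21) (Sb.cons (nat_lit 0) (nat_lit 0) (nat_lit 7) (Sb.cons (nat_lit 4) (nat_lit 7) (nat_lit 6) (Sb.cons (nat_lit 8) (nat_lit 13) (nat_lit 8)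 Sb.nil))) (Bl.r Y1_3_6_6 (nat_lit 6) (Bl.c Y1_3_6_6 (nat_lit 42) (nat_lit 6) Bl.nil))) (Sl.cons (Sd.mk (nat_lit 14) (nat_lit 12) (nat_lit 87) (nat_lit 15) (Sb.cons (nat_lit 0) (nat_lit 0) (nat_lit 4) (Sb.cons (nat_lit 4) (nat_lit 4) (nat_lit 5) (Sb.cons (nat_lit 8) (nat_lit 9) (nat_lit 6) Sb.nil))) (Bl.r Y1_3_7_7 (nat_lit 7) (Bl.c Y1_3_7_7 (nat_lit 30) (nat_lit 7) Bl.nil))) Sl.nil)))))))))
noncomputable def C1_4 : Cd := (Cd.mk (nat_lit 0) (nat_lit 10) (nat_lit 4105) (nat_lit 0) (nat_lit 0) (nat_lit 0) (nat_lit 0) Sl.nil)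
noncomputable def CL1 : Cl := (Cl.cons C1_0 (Cl.cons C1_1 (Cl.cons C1_2 (Cl.cons C1_3 (Cl.cons C1_4 Cl.nil)))))
noncomputable def AL1_0 : Nat := (nat_lit 0x1edf7)
noncomputable def A41_0 : Nat := (nat_lit 0x1edf7)
noncomputable def IX1_0 : Nat := (nat_lit 0xd000000000000c000000000000b000000000000a0000000000000000000000000900000000000080000000000000000000000000700000000000060000000000005000000000000400000000000030000000000000000000000000200000000000010000000000000)
noncomputable def OL1_0 : Nat := (nat_lit 0x20003c007000d001600280040007000c0014002000200020000)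
noncomputable def AL1_1 : Nat := (nat_lit 0x8dabe5fbea47a)
noncomputable def A41_1 : Nat := (nat_lit 0x8d2a25e9ea47a)
noncomputable def IX1_1 : Nat := (nat_lit 0x1900000000000000000000000000000000000000000000000000180000000000017000000000000000000000000160000000000000000000000000000000000000150000000000000000000000001400000000000000000000000013000000000000000000000000000000000000000000000000001200000000000000000000000000000000000001100000000000000000000000010000000000000f000000000000e000000000000d0000000000000000000000000c00000000000000000000000000000000000000b000000000000a0000000000009000000000000800000000000000000000000007000000000000000000000000060000000000000000000000000000000000000050000000000000000000000000000000000000000000000000004000000000000300000000000020000000000001000000000000000000000000000000000000000)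
noncomputable def OL1_1 : Nat := (nat_lit 0x6600bc017002c0052009c0128021003c007000d801a0032005c00a001300240044007800d00140018002800400060004)
noncomputable def AL1_2 : Nat := (nat_lit 0xbddeed)
noncomputable def A41_2 : Nat := (nat_lit 0xbddeed)
noncomputable def IX1_2 : Nat := (nat_lit 0x1100000000000000000000000010000000000000f000000000000e000000000000d0000000000000000000000000c000000000000b000000000000a00000000000000000000000009000000000000800000000000070000000000006000000000000000000000000050000000000004000000000000300000000000000000000000002000000000000100000000000000000000000000)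
noncomputable def OL1_2 : Nat := (nat_lit 0x2e005400a001300240040007800e0018002c0050009000e0018002800300040000)
noncomputable def AL1_3 : Nat := (nat_lit 0x2d3e4b6d0003d5eff6d74da512bd0f817f83c0ffef5fdabff5e9f)
noncomputable def A41_3 : Nat := (nat_lit 0x291c4b6d0002944732d74da512bc0b817f8340efe95bd2b3f529f)
noncomputable def IX1_3 : Nat := (nat_lit 0x6500000000000000000000000064000000000000000000000000000000000000063000000000000000000000000000000000000000000000000006200000000000610000000000060000000000000000000000000000000000000000000000000005f00000000000000000000000000000000000005e0000000000000000000000005d000000000005c0000000000000000000000005b000000000005a0000000000000000000000005900000000000580000000000000000000000005700000000000000000000000000000000000000000000000000000000000000000000000000000000000000000000000000000000000000000000000000000000000000000000000000000000000000000000000000000000000000000000000005600000000000000000000000055000000000000000000000000000000000000054000000000000000000000000530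00000000000000000000000000000000000000000000000005200000000000000000000000000000000000000000000000000510000000000050000000000004f00000000000000000000000000000000000004e000000000004d00000000000000000000000000000000000004c0000000000000000000000004b000000000004a0000000000000000000000004900000000000000000000000048000000000004700000000000460000000000000000000000004500000000000000000000000000000000000004400000000000430000000000000000000000004200000000000410000000000000000000000004000000000000000000000000000000000000003f0000000000000000000000003e000000000000000000000000000000000000000000000000003d00000000000000000000000000000000000003c0000000000000000000000003b0000000000000000000000003a000000000003900000000000380000000000037000000000000000000000000000000000000000000000000000000000000000000000000000000000000000003600000000000000000000000035000000000003400000000000330000000000000000000000000000000000000000000000000000000000000000000000000000000000000000032000000000000000000000000310000000000030000000000002f00000000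0002e000000000002d000000000002c000000000002b000000000002a00000000000000000000000000000000000000000000000000000000000000000000000000002900000000000280000000000000000000000002700000000000000000000000000000000000000000000000000000000000000000000000000000000000000000260000000000025000000000002400000000000000000000000023000000000002200000000000210000000000020000000000001f000000000001e000000000001d0000000000000000000000001c00000000000000000000000000000000000001b0000000000000000000000001a00000000000000000000000019000000000001800000000000000000000000017000000000001600000000000150000000000014000000000000000000000000130000000000000000000000000000000000000120000000000000000000000001100000000000000000000000010000000000000f00000000000000000000000000000000000000e000000000000d000000000000c000000000000b000000000000a00000000000090000000000000000000000000800000000000000000000000007000000000000000000000000000000000000006000000000000000000000000050000000000000000000000000000000000000040000000000003000000000000200000000000010000000000000)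
noncomputable def OL1_3 : Nat := (nat_lit 0x1a2033c06600c8018e031806100bf017a02f005d00b9016e02d805a00a50146028004f009a012c025404a009101200234045808a011002180428084010401fc03f007c00f601e403b007400e001b4035806900d0019c033005f00ba017002d805400a40144028004f009c0134026004b008a0110021003b007400e401b8036006a00d00198032006200bc016002a0050009c012802400460088010001d0036006400c00150028004c0090011002000380060009000e0010001800200020000)
noncomputable def AL1_4 : Nat := (nat_lit 0)
noncomputable def A41_4 : Nat := (nat_lit 0)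
noncomputable def IX1_4 : Nat := (nat_lit 0)
noncomputable def OL1_4 : Nat := (nat_lit 0)
noncomputable def TL1 : Tl := (Tl.cons (Tr.mk AL1_0 A41_0 IX1_0 OL1_0) (Tl.cons (Tr.mk AL1_1 A41_1 IX1_1 OL1_1) (Tl.cons (Tr.mk AL1_2 A41_2 IX1_2 OL1_2) (Tl.cons (Tr.mk AL1_3 A41_3 IX1_3 OL1_3) (Tl.cons (Tr.mk AL1_4 A41_4 IX1_4 OL1_4) Tl.nil)))))
noncomputable def ZL1_0 : Zl := (Zl.cons (nat_lit 0) (nat_lit 0) (nat_lit 14) (Zl.cons (nat_lit 0) (nat_lit 0) (nat_lit 26) (Zl.cons (nat_lit 0) (nat_lit 0) (nat_lit 18) (Zl.cons (nat_lit 0) (nat_lit 0) (nat_lit 102) (Zl.cons (nat_lit 0) (nat_lit 0) (nat_lit 0) Zl.nil)))))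
noncomputable def ZZ1 : ZZ := (ZZ.cons ZL1_0 ZZ.nil)
noncomputable def SI2_0 : Nat := (nat_lit 0x400)
noncomputable def SW2_0 : Nat := (nat_lit 0x1)
noncomputable def RV2_0 : Nat := (nat_lit 0x86001086009)
noncomputable def CO2_0 : Nat := (nat_lit 0x2888300aa03)
noncomputable def C2_0 : Cd := (Cd.mk (nat_lit 2) (nat_lit 5) (nat_lit 1025) SI2_0 SW2_0 RV2_0 CO2_0 (Sl.cons (Sd.mk (nat_lit 2) (nat_lit 0) (nat_lit 0) (nat_lit 1) (Sb.cons (nat_lit 8) (nat_lit 0) (nat_lit 1) Sb.nil) Bl.nil) (Sl.cons (Sd.mk (nat_lit 10) (nat_lit 8) (nat_lit 1) (nat_lit 1) (Sb.cons (nat_lit 0) (nat_lit 0) (nat_lit 1) Sb.nil) Bl.nil) Sl.nil)))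
noncomputable def C2_1 : Cd := (Cd.mk (nat_lit 0) (nat_lit 6) (nat_lit 546) (nat_lit 0) (nat_lit 0) (nat_lit 0) (nat_lit 0) Sl.nil)
noncomputable def SI2_2 : Nat := (nat_lit 0xc0300802008010040000000)
noncomputable def SW2_2 : Nat := (nat_lit 0xe0020048010002006000002000a003)
noncomputable def RV2_2 : Nat := (nat_lit 0x8600808600708600e08601008600008600b08600a08600d88600308600f)
noncomputable def CO2_2 : Nat := (nat_lit 0x152c30142c3011783010b830100430092c30082c3001783001103000b83)
noncomputable def Y2_2_1_0 : Nat := (nat_lit 0x140140)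
noncomputable def Y2_2_2_3 : Nat := (nat_lit 0xc00c00c0)
noncomputable def C2_2 : Cd := (Cd.mk (nat_lit 10) (nat_lit 7) (nat_lit 67) SI2_2 SW2_2 RV2_2 CO2_2 (Sl.cons (Sd.mk (nat_lit 0) (nat_lit 0) (nat_lit 0) (nat_lit 3) (Sb.cons (nat_lit 0) (nat_lit 0) (nat_lit 1) (Sb.cons (nat_lit 4) (nat_lit 1) (nat_lit 2) Sb.nil)) (Bl.c Y2_2_1_0 (nat_lit 4) (nat_lit 1) Bl.nil)) (Sl.cons (Sd.mk (nat_lit 2) (nat_lit 0) (nat_lit 3) (nat_lit 2) (Sb.cons (nat_lit 0) (nat_lit 0) (nat_lit 1) (Sb.cons (nat_lit 4) (nat_lit 1) (nat_lit 1) Sb.nil)) (Bl.r Y2_2_1_0 (nat_lit 0) Bl.nil)) (Sl.cons (Sd.mk (nat_lit 4) (nat_lit 4) (nat_lit 5) (nat_lit 3) (Sb.cons (nat_lit 0) (nat_lit 0) (nat_lit 2) (Sb.cons (nat_lit 4) (nat_lit 2) (nat_lit 1) Sb.nil)) (Bl.r Y2_2_2_3 (nat_lit 3) Bl.nil)) (Sl.cons (Sd.mk (nat_lit 5) (nat_lit 4) (nat_lit 8) (nat_lit 2) (Sb.cons (nat_lit 0) (nat_lit 0) (nat_lit 1) (Sb.cons (nat_lit 4) (nat_lit 1) (nat_lit 1) Sb.nil)) (Bl.c Y2_2_2_3 (nat_lit 6) (nat_lit 2) Bl.nil)) Sl.nil)))))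
noncomputable def SI2_3 : Nat := (nat_lit 0x1c06018060180601405014040100400c020080100400)
noncomputable def SW2_3 : Nat := (nat_lit 0x800b005002000e002008003c00200e006801400c0110000030012003)
noncomputable def RV2_3 : Nat := (nat_lit 0x86002a04006204000a0400720400288600420400420400310000020400920400808600508600608600c204001086011100001a04005)
noncomputable def CO2_3 : Nat := (nat_lit 0x390c30329020328020325420324420309c302b04202b002028880027142027102025583016643013b0301004200b34300aa00001102)
noncomputable def Y2_3_1_0 : Nat := (nat_lit 0x40000)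
noncomputable def Y2_3_2_3 : Nat := (nat_lit 0x40)
noncomputable def Y2_3_4_5 : Nat := (nat_lit 0x180)
noncomputable def Y2_3_6_6 : Nat := (nat_lit 0x40000000000)
noncomputable def C2_3 : Cd := (Cd.mk (nat_lit 18) (nat_lit 4) (nat_lit 4369) SI2_3 SW2_3 RV2_3 CO2_3 (Sl.cons (Sd.mk (nat_lit 0) (nat_lit 0) (nat_lit 0) (nat_lit 1) (Sb.cons (nat_lit 4) (nat_lit 0) (nat_lit 1) Sb.nil) (Bl.c Y2_3_1_0 (nat_lit 4) (nat_lit 1) Bl.nil)) (Sl.cons (Sd.mk (nat_lit 2) (nat_lit 0) (nat_lit 1) (nat_lit 2) (Sb.cons (nat_lit 8) (nat_lit 0) (nat_lit 1) (Sb.cons (nat_lit 12) (nat_lit 1) (nat_lit 1) Sb.nil)) (Bl.r Y2_3_1_0 (nat_lit 0) Bl.nil)) (Sl.cons (Sd.mk (nat_lit 4) (nat_lit 4) (nat_lit 3) (nat_lit 2) (Sb.cons (nat_lit 0) (nat_lit 0) (nat_lit 1) (Sb.cons (nat_lit 12) (nat_lit 1) (nat_lit 1) Sb.nil)) (Bl.r Y2_3_2_3 (nat_lit 3) Bl.nil)) (Sl.cons (Sd.mk (nat_lit 5) (nat_lit 4) (nat_lit 5) (nat_lit 1) (Sb.cons (nat_lit 8) (nat_lit 0) (nat_lit 1) Sb.nil) (Bl.c Y2_3_2_3 (nat_lit 4) (nat_lit 2) Bl.nil)) (Sl.cons (Sd.mk (nat_lit 9)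 (nat_lit 8) (nat_lit 6) (nat_lit 3) (Sb.cons (nat_lit 4) (nat_lit 0) (nat_lit 1) (Sb.cons (nat_lit 12) (nat_lit 1) (nat_lit 2) Sb.nil)) (Bl.r Y2_3_4_5 (nat_lit 5) Bl.nil)) (Sl.cons (Sd.mk (nat_lit 10) (nat_lit 8) (nat_lit 9) (nat_lit 3) (Sb.cons (nat_lit 0) (nat_lit 0) (nat_lit 1) (Sb.cons (nat_lit 12) (nat_lit 1) (nat_lit 2) Sb.nil)) (Bl.c Y2_3_4_5 (nat_lit 6) (nat_lit 4) Bl.nil)) (Sl.cons (Sd.mk (nat_lit 12) (nat_lit 12) (nat_lit 12) (nat_lit 5) (Sb.cons (nat_lit 0) (nat_lit 0) (nat_lit 1) (Sb.cons (nat_lit 8) (nat_lit 1) (nat_lit 4) Sb.nil)) (Bl.r Y2_3_6_6 (nat_lit 6) (Bl.c Y2_3_6_6 (nat_lit 10) (nat_lit 6) Bl.nil))) (Sl.cons (Sd.mk (nat_lit 14) (nat_lit 12) (nat_lit 17) (nat_lit 1) (Sb.cons (nat_lit 4) (nat_lit 0) (nat_lit 1) Sb.nil) Bl.nil) Sl.nil)))))))))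
noncomputable def C2_4 : Cd := (Cd.mk (nat_lit 0) (nat_lit 10) (nat_lit 4105) (nat_lit 0) (nat_lit 0) (nat_lit 0) (nat_lit 0) Sl.nil)
noncomputable def CL2 : Cl := (Cl.cons C2_0 (Cl.cons C2_1 (Cl.cons C2_2 (Cl.cons C2_3 (Cl.cons C2_4 Cl.nil)))))
noncomputable def AL2_0 : Nat := (nat_lit 0x3fff)
noncomputable def A42_0 : Nat := (nat_lit 0x810)
noncomputable def IX2_0 : Nat := (nat_lit 0x100000000000000000000000000000000000000000000000000000000000000000000000000000000000000000000000000000000000000000000000000000000000000000000000)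
noncomputable def OL2_0 : Nat := (nat_lit 0x160010)
noncomputable def AL2_1 : Nat := (nat_lit 0)
noncomputable def A42_1 : Nat := (nat_lit 0)
noncomputable def IX2_1 : Nat := (nat_lit 0)
noncomputable def OL2_1 : Nat := (nat_lit 0)
noncomputable def AL2_2 : Nat := (nat_lit 0x3effe)
noncomputable def A42_2 : Nat := (nat_lit 0x16cba)
noncomputable def IX2_2 : Nat := (nat_lit 0x90000000000000000000000000800000000000070000000000000000000000000600000000000050000000000000000000000000000000000000040000000000000000000000000300000000000020000000000001000000000000000000000000000000000000000)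
noncomputable def OL2_2 : Nat := (nat_lit 0x200038006800b0014001c002800400060004)
noncomputable def AL2_3 : Nat := (nat_lit 0x8083d716071c5687350469c0a)
noncomputable def A42_3 : Nat := (nat_lit 0x82d01003085400210440802)
noncomputable def IX2_3 : Nat := (nat_lit 0x110000000000000000000000000000000000000000000000000000000000000000000000000000100000000000000000000000000f000000000000e0000000000000000000000000d0000000000000000000000000000000000000000000000000000000000000000000000000000000000000000000000000000000c0000000000000000000000000000000000000000000000000000000000000000000000000000000000000000000000000000000000000000000000000000000000000000000000b000000000000a000000000000000000000000000000000000000000000000000000000000000090000000000000000000000000000000000000000000000000000000000000000800000000000000000000000007000000000000000000000000060000000000000000000000000000000000000000000000000000000000000000000000000000000000000000000000000000000000000000000000000000000000000000000000000000000000000000000000005000000000000000000000000000000000000000000000000000000000000000040000000000000000000000000000000000000000000000000000000000000000000000000000030000000000000000000000000000000000000000000000000002000000000000000000000000000000000000000000000000000000000000000000000000000000000000000000100000000000000000000000000000000000000000000000000000000000000000000000000000000000000000000000000000000000000000000000000000000000000000000000)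
noncomputable def OL2_3 : Nat := (nat_lit 0xb60154029805200a0012001e803c006e00c8018002e0042007000b001200160004)
noncomputable def AL2_4 : Nat := (nat_lit 0)
noncomputable def A42_4 : Nat := (nat_lit 0)
noncomputable def IX2_4 : Nat := (nat_lit 0)
noncomputable def OL2_4 : Nat := (nat_lit 0)
noncomputable def TL2 : Tl := (Tl.cons (Tr.mk AL2_0 A42_0 IX2_0 OL2_0) (Tl.cons (Tr.mk AL2_1 A42_1 IX2_1 OL2_1) (Tl.cons (Tr.mk AL2_2 A42_2 IX2_2 OL2_2) (Tl.cons (Tr.mk AL2_3 A42_3 IX2_3 OL2_3) (Tl.cons (Tr.mk AL2_4 A42_4 IX2_4 OL2_4) Tl.nil)))))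
noncomputable def ZL2_0 : Zl := (Zl.cons (nat_lit 0) (nat_lit 0) (nat_lit 0) (Zl.cons (nat_lit 0) (nat_lit 0) (nat_lit 0) (Zl.cons (nat_lit 5) (nat_lit 0) (nat_lit 3) (Zl.cons (nat_lit 3) (nat_lit 3) (nat_lit 2) (Zl.cons (nat_lit 0) (nat_lit 0) (nat_lit 0) Zl.nil)))))
noncomputable def ZZ2 : ZZ := (ZZ.cons ZL2_0 ZZ.nil)
def wf0_0 : wfC (nat_lit 45) (nat_lit 2) C0_0 = true := by decide +kernel
def pl0_0 : plCk (nat_lit 45) (nat_lit 2) (nat_lit 11) (nat_lit 5) (nat_lit 0) (nat_lit 2) (nat_lit 5) (nat_lit 4) (nat_lit 0) nl0 CL0 = true := by decide +kernel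
def wf0_1 : wfC (nat_lit 45) (nat_lit 2) C0_1 = true := by decide +kernel
def pl0_1 : plCk (nat_lit 45) (nat_lit 2) (nat_lit 11) (nat_lit 5) (nat_lit 0) (nat_lit 2) (nat_lit 5) (nat_lit 4) (nat_lit 1) nl0 CL0 = true := by decide +kernel
def wf0_2 : wfC (nat_lit 45) (nat_lit 2) C0_2 = true := by decide +kernel
def pl0_2 : plCk (nat_lit 45) (nat_lit 2) (nat_lit 11) (nat_lit 5) (nat_lit 0) (nat_lit 2) (nat_lit 5) (nat_lit 4) (nat_lit 2) nl0 CL0 = true := by decide +kernel
def wf0_3 : wfC (nat_lit 45) (nat_lit 2) C0_3 = true := by decide +kernel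
def pl0_3 : plCk (nat_lit 45) (nat_lit 2) (nat_lit 11) (nat_lit 5) (nat_lit 0) (nat_lit 2) (nat_lit 5) (nat_lit 4) (nat_lit 3) nl0 CL0 = true := by decide +kernel
def wf0_4 : wfC (nat_lit 45) (nat_lit 2) C0_4 = true := by decide +kernel
def pl0_4 : plCk (nat_lit 45) (nat_lit 2) (nat_lit 11) (nat_lit 5) (nat_lit 0) (nat_lit 2) (nat_lit 5) (nat_lit 4) (nat_lit 4) nl0 CL0 = true := by decide +kernel
def ti0_0 : tileCk (nat_lit 45) (nat_lit 2) (nat_lit 1) (nat_lit 1) (nat_lit 31) (nat_lit 11) (nat_lit 5) ZL0_0 CL0 = true := by decide +kernel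
def zl0_0 : zlOK (nat_lit 31) ZL0_0 = true := by decide +kernel
def tc0_0 : tiCov (nat_lit 1) (nat_lit 0) ZZ0 C0_0 = true := by decide +kernel
def tc0_1 : tiCov (nat_lit 1) (nat_lit 1) ZZ0 C0_1 = true := by decide +kernel
def tc0_2 : tiCov (nat_lit 1) (nat_lit 2) ZZ0 C0_2 = true := by decide +kernel
def tc0_3 : tiCov (nat_lit 1) (nat_lit 3) ZZ0 C0_3 = true := by decide +kernel
def tc0_4 : tiCov (nat_lit 1) (nat_lit 4) ZZ0 C0_4 = true := by decide +kernel
def wf1_0 : wfC (nat_lit 22) (nat_lit 2) C1_0 = true := by decide +kernel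
def rf1_0 : rfCk (nat_lit 45) (nat_lit 2) (nat_lit 22) (nat_lit 2) (nat_lit 9) (nat_lit 0) (nat_lit 0) TL1 CL0 CL1 = true := by decide +kernel
def st1_0_0 : starCk (nat_lit 22) (nat_lit 2) (nat_lit 1) (nat_lit 1) (nat_lit 3) (nat_lit 2) (nat_lit 1) C1_0 = true := by decide +kernel
def sc1_0 : stCov (nat_lit 0) (nat_lit 2) (Rl.cons (nat_lit 2) (nat_lit 3) Rl.nil) C1_0 = true := by decide +kernel
def wf1_1 : wfC (nat_lit 22) (nat_lit 2) C1_1 = true := by decide +kernel
def rf1_1 : rfCk (nat_lit 45) (nat_lit 2) (nat_lit 22) (nat_lit 2) (nat_lit 9) (nat_lit 0) (nat_lit 1) TL1 CL0 CL1 = true := by decide +kernel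
def st1_1_0 : starCk (nat_lit 22) (nat_lit 2) (nat_lit 1) (nat_lit 1) (nat_lit 3) (nat_lit 19) (nat_lit 256) C1_1 = true := by decide +kernel
def sc1_1 : stCov (nat_lit 2) (nat_lit 19) (Rl.cons (nat_lit 19) (nat_lit 3) Rl.nil) C1_1 = true := by decide +kernel
def wf1_2 : wfC (nat_lit 22) (nat_lit 2) C1_2 = true := by decide +kernel
def rf1_2 : rfCk (nat_lit 45) (nat_lit 2) (nat_lit 22) (nat_lit 2) (nat_lit 9) (nat_lit 0) (nat_lit 2) TL1 CL0 CL1 = true := by decide +kernel
def st1_2_0 : starCk (nat_lit 22) (nat_lit 2) (nat_lit 1) (nat_lit 1) (nat_lit 4) (nat_lit 5) (nat_lit 1) C1_2 = true := by decide +kernel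
def sc1_2 : stCov (nat_lit 0) (nat_lit 5) (Rl.cons (nat_lit 5) (nat_lit 4) Rl.nil) C1_2 = true := by decide +kernel
def wf1_3 : wfC (nat_lit 22) (nat_lit 2) C1_3 = true := by decide +kernel
def rf1_3 : rfCk (nat_lit 45) (nat_lit 2) (nat_lit 22) (nat_lit 2) (nat_lit 9) (nat_lit 0) (nat_lit 3) TL1 CL0 CL1 = true := by decide +kernel
def st1_3_0 : starCk (nat_lit 22) (nat_lit 2) (nat_lit 1) (nat_lit 1) (nat_lit 9) (nat_lit 21) (nat_lit 16) C1_3 = true := by decide +kernel
def sc1_3 : stCov (nat_lit 1) (nat_lit 21) (Rl.cons (nat_lit 21) (nat_lit 9) Rl.nil) C1_3 = true := by decide +kernel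
def wf2_0 : wfC (nat_lit 6) (nat_lit 2) C2_0 = true := by decide +kernel
def rf2_0 : rfCk (nat_lit 22) (nat_lit 2) (nat_lit 6) (nat_lit 2) (nat_lit 9) (nat_lit 0) (nat_lit 0) TL2 CL1 CL2 = true := by decide +kernel
def wf2_2 : wfC (nat_lit 6) (nat_lit 2) C2_2 = true := by decide +kernel
def rf2_2 : rfCk (nat_lit 22) (nat_lit 2) (nat_lit 6) (nat_lit 2) (nat_lit 9) (nat_lit 0) (nat_lit 2) TL2 CL1 CL2 = true := by decide +kernel
def wf2_3 : wfC (nat_lit 6) (nat_lit 2) C2_3 = true := by decide +kernel
def rf2_3 : rfCk (nat_lit 22) (nat_lit 2) (nat_lit 6) (nat_lit 2) (nat_lit 9) (nat_lit 0) (nat_lit 3) TL2 CL1 CL2 = true := by decide +kernel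
def ti2_0 : tileCk (nat_lit 6) (nat_lit 2) (nat_lit 1) (nat_lit 1) (nat_lit 5) (nat_lit 11) (nat_lit 5) ZL2_0 CL2 = true := by decide +kernel
def zl2_0 : zlOK (nat_lit 5) ZL2_0 = true := by decide +kernel
def tc2_0 : tiCov (nat_lit 1) (nat_lit 0) ZZ2 C2_0 = true := by decide +kernel
def tc2_2 : tiCov (nat_lit 1) (nat_lit 2) ZZ2 C2_2 = true := by decide +kernel
def tc2_3 : tiCov (nat_lit 1) (nat_lit 3) ZZ2 C2_3 = true := by decide +kernel
def de2_0 : deadCk (nat_lit 6) (nat_lit 2) C2_0 = true := by decide +kernel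
def de2_2 : deadCk (nat_lit 6) (nat_lit 2) C2_2 = true := by decide +kernel
def de2_3 : deadCk (nat_lit 6) (nat_lit 2) C2_3 = true := by decide +kernel
def sc0_0 : stCov (nat_lit 0) (nat_lit 0) (Rl.cons (nat_lit 0) (nat_lit 18) Rl.nil) C0_0 = true := by decide +kernel
def sc0_1 : stCov (nat_lit 0) (nat_lit 0) (Rl.cons (nat_lit 0) (nat_lit 52) Rl.nil) C0_1 = true := by decide +kernel
def sc0_2 : stCov (nat_lit 0) (nat_lit 0) (Rl.cons (nat_lit 0) (nat_lit 24) Rl.nil) C0_2 = true := by decide +kernel
def sc0_3 : stCov (nat_lit 0) (nat_lit 0) (Rl.cons (nat_lit 0) (nat_lit 210) Rl.nil) C0_3 = true := by decide +kernel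
def sc0_4 : stCov (nat_lit 0) (nat_lit 0) (Rl.cons (nat_lit 0) (nat_lit 32) Rl.nil) C0_4 = true := by decide +kernel
def wf1_4 : wfC (nat_lit 22) (nat_lit 2) C1_4 = true := by decide +kernel
def rf1_4 : rfCk (nat_lit 45) (nat_lit 2) (nat_lit 22) (nat_lit 2) (nat_lit 9) (nat_lit 0) (nat_lit 4) TL1 CL0 CL1 = true := by decide +kernel
def zl1_0 : zlOK (nat_lit 102) ZL1_0 = true := by decide +kernel
def sc1_4 : stCov (nat_lit 0) (nat_lit 0) Rl.nil C1_4 = true := by decide +kernel
def tc1_0 : tiCov (nat_lit 1) (nat_lit 0) ZZ1 C1_0 = true := by decide +kernel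
def tc1_1 : tiCov (nat_lit 1) (nat_lit 1) ZZ1 C1_1 = true := by decide +kernel
def tc1_2 : tiCov (nat_lit 1) (nat_lit 2) ZZ1 C1_2 = true := by decide +kernel
def tc1_3 : tiCov (nat_lit 1) (nat_lit 3) ZZ1 C1_3 = true := by decide +kernel
def tc1_4 : tiCov (nat_lit 1) (nat_lit 4) ZZ1 C1_4 = true := by decide +kernel
def wf2_1 : wfC (nat_lit 6) (nat_lit 2) C2_1 = true := by decide +kernel
def wf2_4 : wfC (nat_lit 6) (nat_lit 2) C2_4 = true := by decide +kernel
def rf2_1 : rfCk (nat_lit 22) (nat_lit 2) (nat_lit 6) (nat_lit 2) (nat_lit 9) (nat_lit 0) (nat_lit 1) TL2 CL1 CL2 = true := by decide +kernel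
def rf2_4 : rfCk (nat_lit 22) (nat_lit 2) (nat_lit 6) (nat_lit 2) (nat_lit 9) (nat_lit 0) (nat_lit 4) TL2 CL1 CL2 = true := by decide +kernel
def sc2_0 : stCov (nat_lit 0) (nat_lit 0) (Rl.cons (nat_lit 0) (nat_lit 2) Rl.nil) C2_0 = true := by decide +kernel
def sc2_1 : stCov (nat_lit 0) (nat_lit 0) Rl.nil C2_1 = true := by decide +kernel
def sc2_2 : stCov (nat_lit 0) (nat_lit 0) (Rl.cons (nat_lit 0) (nat_lit 10) Rl.nil) C2_2 = true := by decide +kernel
def sc2_3 : stCov (nat_lit 0) (nat_lit 0) (Rl.cons (nat_lit 0) (nat_lit 18) Rl.nil) C2_3 = true := by decide +kernel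
def sc2_4 : stCov (nat_lit 0) (nat_lit 0) Rl.nil C2_4 = true := by decide +kernel
def tc2_1 : tiCov (nat_lit 1) (nat_lit 1) ZZ2 C2_1 = true := by decide +kernel
def tc2_4 : tiCov (nat_lit 1) (nat_lit 4) ZZ2 C2_4 = true := by decide +kernel
def de2_1 : deadCk (nat_lit 6) (nat_lit 2) C2_1 = true := by decide +kernel
def de2_4 : deadCk (nat_lit 6) (nat_lit 2) C2_4 = true := by decide +kernel

end Pool.Agent.NNr.R11_4_15_17
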